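import Pool.Agent.H16.TO.Targets

/-!
# Closure properties of the definable predicates (module CD)
-/

set_option autoImplicit false

namespace Pool.Agent.H89.TO

open Pool.Agent.H16.TO

theorem cd_congr {F F' : Pd2} (h : CD F) (he : ∀ n P R x y, x < n → y < n →
    (F n P R x y ↔ F' n P R x y)) : CD F' := by
  obtain ⟨φ, hb, hφ⟩ := h
  refine ⟨φ, hb, fun n P R s hs => ?_⟩
  rw [hφ n P R s hs]
  exact he n P R _ _ (hs false) (hs true)

theorem cd_not {F : Pd2} (h : CD F) : CD (fun n P R x y => ¬ F n P R x y) := by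
  obtain ⟨φ, hb, hφ⟩ := h
  refine ⟨.neg φ, hb, fun n P R s hs => ?_⟩
  show ¬ φ.SatN n P R s ↔ _
  rw [hφ n P R s hs]

theorem cd_and {F F' : Pd2} (h : CD F) (h' : CD F') :
    CD (fun n P R x y => F n P R x y ∧ F' n P R x y) := by
  obtain ⟨φ, hb, hφ⟩ := h
  obtain ⟨ψ, hb', hψ⟩ := h'
  refine ⟨.and φ ψ, ⟨hb, hb'⟩, fun n P R s hs => ?_⟩
  show φ.SatN n P R s ∧ ψ.SatN n P R s ↔ _
  rw [hφ n P R s hs, hψ n P R s hs]

theorem cd_or {F F' : Pd2} (h : CD F) (h' : CD F') :
    CD (fun n P R x y => F n P R x y ∨ F' n P R x y) := by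
  refine cd_congr (cd_not (cd_and (cd_not h) (cd_not h'))) ?_
  intro n P R x y _ _
  tauto

theorem cd_imp {F F' : Pd2} (h : CD F) (h' : CD F') :
    CD (fun n P R x y => F n P R x y → F' n P R x y) := by
  refine cd_congr (cd_or (cd_not h) h') ?_
  intro n P R x y _ _
  tauto

theorem cd_const (p : Prop) : CD (fun _ _ _ _ _ => p) := by
  by_cases hp : p
  · refine ⟨.eq false false, trivial, fun n P R s hs => ?_⟩
    show s false = s false ↔ p
    simp [hp]
  · refine ⟨.neg (.eq false false), trivial, fun n P R s hs => ?_⟩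
    show ¬ (s false = s false) ↔ p
    simp [hp]

theorem cd_cntF {F : Pd2} (k : ℕ) (h : CD F) :
    CD (fun n P R _ y => k ≤ {a | a < n ∧ F n P R a y}.ncard) := by
  obtain ⟨φ, hb, hφ⟩ := h
  refine ⟨.cnt k false φ, hb, fun n P R s hs => ?_⟩
  show k ≤ {a | a < n ∧ φ.SatN n P R (Function.update s false a)}.ncard ↔
    k ≤ {a | a < n ∧ F n P R a (s true)}.ncard
  have he : {a | a < n ∧ φ.SatN n P R (Function.update s false a)} =
      {a | a < n ∧ F n P R a (s true)} := by
    ext a
    refine and_congr_right fun ha => ?_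
    have hs' : ∀ w, Function.update s false a w < n := by
      intro w
      cases w
      · simpa using ha
      · simpa using hs true
    rw [hφ n P R _ hs']
    simp
  rw [he]

theorem cd_cntT {F : Pd2} (k : ℕ) (h : CD F) :
    CD (fun n P R x _ => k ≤ {b | b < n ∧ F n P R x b}.ncard) := by
  obtain ⟨φ, hb, hφ⟩ := h
  refine ⟨.cnt k true φ, hb, fun n P R s hs => ?_⟩
  show k ≤ {a | a < n ∧ φ.SatN n P R (Function.update s true a)}.ncard ↔
    k ≤ {a | a < n ∧ F n P R (s false) a}.ncard
  have he : {a | a < n ∧ φ.SatN n P R (Function.update s true a)} =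
      {a | a < n ∧ F n P R (s false) a} := by
    ext a
    refine and_congr_right fun ha => ?_
    have hs' : ∀ w, Function.update s true a w < n := by
      intro w
      cases w
      · simpa using hs false
      · simpa using ha
    rw [hφ n P R _ hs']
    simp
  rw [he]

theorem one_le_ncard_iff (n : ℕ) (Q : ℕ → Prop) :
    1 ≤ {a | a < n ∧ Q a}.ncard ↔ ∃ a < n, Q a := by
  have hf : {a | a < n ∧ Q a}.Finite := (Set.finite_lt_nat n).subset fun a ha => ha.1
  rw [Nat.one_le_iff_ne_zero, ← Nat.pos_iff_ne_zero, Set.ncard_pos hf]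
  exact Iff.rfl

theorem cd_exF {F : Pd2} (h : CD F) : CD (fun n P R _ y => ∃ a < n, F n P R a y) :=
  cd_congr (cd_cntF 1 h) fun n P R _ y _ _ => one_le_ncard_iff n fun a => F n P R a y

theorem cd_exT {F : Pd2} (h : CD F) : CD (fun n P R x _ => ∃ b < n, F n P R x b) :=
  cd_congr (cd_cntT 1 h) fun n P R x _ _ _ => one_le_ncard_iff n fun b => F n P R x b

theorem cd_allF {F : Pd2} (h : CD F) : CD (fun n P R _ y => ∀ a < n, F n P R a y) := by
  refine cd_congr (cd_not (cd_exF (cd_not h))) ?_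
  intro n P R x y _ _
  push Not
  exact Iff.rfl

theorem cd_allT {F : Pd2} (h : CD F) : CD (fun n P R x _ => ∀ b < n, F n P R x b) := by
  refine cd_congr (cd_not (cd_exT (cd_not h))) ?_
  intro n P R x y _ _
  push Not
  exact Iff.rfl

theorem cd_allFin (k : ℕ) (F : Fin k → Pd2) (h : ∀ i, CD (F i)) :
    CD (fun n P R x y => ∀ i, F i n P R x y) := by
  induction k with
  | zero =>
    refine cd_congr (cd_const True) ?_
    intro n P R x y _ _
    simp
  | succ k ih =>
    refine cd_congr (cd_and (h 0) (ih (fun i => F i.succ) fun i => h i.succ)) ?_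
    intro n P R x y _ _
    exact (Fin.forall_fin_succ (P := fun i => F i n P R x y)).symm

theorem cd_allFinite (ι : Type) [Finite ι] (F : ι → Pd2) (h : ∀ i, CD (F i)) :
    CD (fun n P R x y => ∀ i, F i n P R x y) := by
  obtain ⟨k, ⟨e⟩⟩ := Finite.exists_equiv_fin ι
  refine cd_congr (cd_allFin k (fun i => F (e.symm i)) fun i => h _) ?_
  intro n P R x y _ _
  refine ⟨fun hh i => ?_, fun hh i => hh _⟩
  have := hh (e i)
  rwa [e.symm_apply_apply] at this

theorem cd_exFinite (ι : Type) [Finite ι] (F : ι → Pd2) (h : ∀ i, CD (F i)) :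
    CD (fun n P R x y => ∃ i, F i n P R x y) := by
  refine cd_congr (cd_not (cd_allFinite ι (fun i n P R x y => ¬ F i n P R x y)
    fun i => cd_not (h i))) ?_
  intro n P R x y _ _
  push Not
  exact Iff.rfl

theorem pf_cd : T_CD := by
  refine ⟨fun i => ⟨?_, ?_⟩, fun i hi => ⟨?_, ?_⟩, ?_, cd_const, fun F h => cd_not h,
    fun F F' h h' => cd_and h h', fun F F' h h' => cd_or h h', fun F F' h h' => cd_imp h h',
    fun F h => cd_allF h, fun F h => cd_allT h, fun F h => cd_exF h, fun F h => cd_exT h,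
    fun F k h => cd_cntF k h, fun ι _ F h => cd_allFinite ι F h,
    fun ι _ F h => cd_exFinite ι F h⟩
  · exact ⟨.un i false, trivial, fun n P R s hs => Iff.rfl⟩
  · exact ⟨.un i true, trivial, fun n P R s hs => Iff.rfl⟩
  · exact ⟨.bi i false true, hi, fun n P R s hs => Iff.rfl⟩
  · exact ⟨.bi i true false, hi, fun n P R s hs => Iff.rfl⟩
  · exact ⟨.eq false true, trivial, fun n P R s hs => Iff.rfl⟩

end Pool.Agent.H89.TO
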