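import Pool.Agent.H84.TO.TargetsR

/-!
# Matrix algebra (MP_b4e73a_pr, module MAT)
-/

set_option autoImplicit false

namespace Pool.Agent.H89.TO

open Pool.Agent.H84.TO Matrix

/-- the bidiagonal matrix -/
noncomputable def CC (ℓ n : ℕ) : Matrix (Fin n) (Fin n) ℝ := fun j k =>
  (if j = k then 1 else 0) +
    (if (j : ℕ) + 1 = k then -(2 * ((k : ℕ) : ℝ) / (2 * ((k : ℕ) : ℝ) + ℓ)) else 0)

theorem det_CC (ℓ n : ℕ) : (CC ℓ n).det = 1 := by
  rw [Matrix.det_of_isUpperTriangular]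
  · apply Finset.prod_eq_one
    intro i _
    unfold CC
    simp
  · intro i j hij
    unfold CC
    have h1 : (j : ℕ) < (i : ℕ) := hij
    have h2 : i ≠ j := fun h => by rw [h] at h1; omega
    rw [if_neg h2, if_neg (by omega), add_zero]

theorem mul_CC (ℓ n : ℕ) (F : ℕ → ℕ → ℝ) (i k : Fin n) :
    ((Matrix.of fun i k : Fin n => F i k) * CC ℓ n) i k =
      F i k - 2 * ((k : ℕ) : ℝ) / (2 * ((k : ℕ) : ℝ) + ℓ) * F i ((k : ℕ) - 1) := by
  rw [Matrix.mul_apply]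
  unfold CC
  simp only [Matrix.of_apply]
  simp_rw [mul_add]
  rw [Finset.sum_add_distrib]
  simp only [mul_ite, mul_one, mul_zero, Finset.sum_ite_eq', Finset.mem_univ, if_true]
  rw [sub_eq_add_neg]
  congr 1
  by_cases hk : (k : ℕ) = 0
  · rw [hk]
    simp
  · have hk' : (k : ℕ) - 1 < n := by omega
    rw [Finset.sum_eq_single ⟨(k : ℕ) - 1, hk'⟩]
    · rw [if_pos (by simp only; omega)]
      ring
    · intro j _ hj
      rw [if_neg]
      intro hc
      apply hj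
      ext
      simp only
      omega
    · simp

theorem bt_pos {x y : ℝ} (hx : 0 < x) (hy : 0 < y) : 0 < bt x y := by
  unfold bt
  have := Real.Gamma_pos_of_pos hx
  have := Real.Gamma_pos_of_pos hy
  have := Real.Gamma_pos_of_pos (add_pos hx hy)
  positivity

/-- the recursion for the beta function -/
theorem bt_succ {x y : ℝ} (hx : 0 < x) (hy : 0 < y) : bt (x + 1) y = x / (x + y) * bt x y := by
  unfold bt
  have h1 : x + 1 + y = (x + y) + 1 := by ring
  rw [h1, Real.Gamma_add_one hx.ne', Real.Gamma_add_one (by positivity)]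
  have := (Real.Gamma_pos_of_pos (add_pos hx hy)).ne'
  field_simp

theorem bt_one {y : ℝ} (hy : 0 < y) : bt 1 y = 1 / y := by
  unfold bt
  rw [Real.Gamma_one, add_comm, Real.Gamma_add_one hy.ne']
  have := (Real.Gamma_pos_of_pos hy).ne'
  field_simp

/-- the constants -/
theorem rk_eq (ℓ : ℕ) (hℓ : 2 ≤ ℓ) (k : ℕ) :
    1 / ((k + (ℓ : ℝ) / 2) * bt (k + 1) ((ℓ : ℝ) / 2) * bt (k + 1 / 2) ((ℓ : ℝ) / 2)) =
      kap ℓ * wg ℓ k := by
  have hl : (0 : ℝ) < ℓ := by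
    have : (2 : ℝ) ≤ ℓ := by exact_mod_cast hℓ
    linarith
  have hk : (0 : ℝ) ≤ k := Nat.cast_nonneg k
  set lam : ℝ := (ℓ : ℝ) / 2 with hlam
  have hl0 : 0 < lam := by positivity
  have g1 := Real.Gamma_pos_of_pos (show 0 < (k : ℝ) + 1 by positivity)
  have g2 := Real.Gamma_pos_of_pos (show 0 < (k : ℝ) + 1 / 2 by positivity)
  have g3 := Real.Gamma_pos_of_pos hl0
  have g4 := Real.Gamma_pos_of_pos (show 0 < (k : ℝ) + lam by positivity)
  have g5 := Real.Gamma_pos_of_pos (show 0 < (k : ℝ) + 1 / 2 + lam by positivity)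
  have g6 := Real.Gamma_pos_of_pos (show 0 < 2 * (k : ℝ) + 1 by positivity)
  have d1 := Real.Gamma_mul_Gamma_add_half ((k : ℝ) + lam)
  have d2 := Real.Gamma_mul_Gamma_add_half ((k : ℝ) + 1 / 2)
  have e1 : 2 * ((k : ℝ) + lam) = 2 * k + ℓ := by rw [hlam]; ring
  have e2 : 2 * ((k : ℝ) + 1 / 2) = 2 * k + 1 := by ring
  have e3 : (k : ℝ) + 1 / 2 + 1 / 2 = k + 1 := by ring
  have e4 : (k : ℝ) + lam + 1 / 2 = k + 1 / 2 + lam := by ring
  rw [e1, e4] at d1
  rw [e2, e3] at d2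
  have hsq : 0 < Real.sqrt Real.pi := Real.sqrt_pos.2 Real.pi_pos
  unfold bt kap wg
  rw [show (k : ℝ) + 1 + lam = (k + lam) + 1 by ring,
    Real.Gamma_add_one (show (k : ℝ) + lam ≠ 0 by positivity)]
  have h1 : 1 / (((k : ℝ) + lam) * (Real.Gamma (k + 1) * Real.Gamma lam / ((k + lam) * Real.Gamma (k + lam))) *
      (Real.Gamma (k + 1 / 2) * Real.Gamma lam / Real.Gamma (k + 1 / 2 + lam))) =
      (Real.Gamma (k + lam) * Real.Gamma (k + 1 / 2 + lam)) /
        ((Real.Gamma (k + 1 / 2) * Real.Gamma (k + 1)) * Real.Gamma lam ^ 2) := by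
    field_simp
  rw [h1, d1, d2]
  have h2 : (2 : ℝ) ^ (1 - (2 * (k : ℝ) + ℓ)) = 2 ^ (1 - (ℓ : ℝ)) * 2 ^ (1 - (2 * (k : ℝ) + 1)) := by
    rw [← Real.rpow_add (by norm_num)]
    congr 1
    ring
  rw [h2]
  have h3 : (0 : ℝ) < 2 ^ (1 - (2 * (k : ℝ) + 1)) := by positivity
  field_simp
  rw [hlam]

/-- **MAT** -/
theorem mat (hRE3 : T_RE3) : T_MAT := by
  intro ℓ hℓ n Mt Mr
  have hl : (0 : ℝ) < ℓ := by
    have : (2 : ℝ) ≤ ℓ := by exact_mod_cast hℓ
    linarith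
  have hl2 : (0 : ℝ) < (ℓ : ℝ) / 2 := by positivity
  -- the numbers
  set A : ℕ → ℝ := fun k => bt (k + 1) ((ℓ : ℝ) / 2) / bt 1 ((ℓ : ℝ) / 2) with hA
  set T : ℕ → ℝ := fun i => bt (i + 1 / 2) ((ℓ : ℝ) / 2) / bt (1 / 2) ((ℓ : ℝ) / 2) with hT
  set cR : ℝ := ℓ / (2 * bt (1 / 2) ((ℓ : ℝ) / 2)) with hcR
  have hA0 : ∀ k, 0 < A k := fun k => div_pos (bt_pos (by positivity) hl2) (bt_pos one_pos hl2)
  have hT0 : ∀ k, 0 < T k := fun k =>
    div_pos (bt_pos (by positivity) hl2) (bt_pos (by norm_num) hl2)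
  have hArec : ∀ k : ℕ, 1 ≤ k → A k = 2 * (k : ℝ) / (2 * (k : ℝ) + ℓ) * A (k - 1) := by
    intro k hk
    obtain ⟨m, rfl⟩ : ∃ m, k = m + 1 := ⟨k - 1, by omega⟩
    rw [Nat.add_sub_cancel]
    simp only [hA]
    push_cast
    rw [bt_succ (x := (m : ℝ) + 1) (by positivity) hl2]
    have h1 : 2 * ((m : ℝ) + 1) / (2 * ((m : ℝ) + 1) + ℓ) = ((m : ℝ) + 1) / ((m : ℝ) + 1 + ℓ / 2) := by
      rw [div_eq_div_iff (by positivity) (by positivity)]
      ring
    rw [h1]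
    ring
  have hMt : Mt = Matrix.of (fun i k : Fin n =>
    (fun i k : ℕ => if i ≤ k then A k * T i else 0) i k) := rfl
  have hMr : Mr = Matrix.of (fun i k : Fin n => (fun i k : ℕ => cR * GG ℓ i k) i k) := rfl
  have hMtC : Mt * CC ℓ n = Matrix.diagonal (fun k : Fin n => A k * T k) := by
    ext i k
    rw [hMt, mul_CC ℓ n (fun i k : ℕ => if i ≤ k then A k * T i else 0) i k]
    rcases lt_trichotomy (i : ℕ) (k : ℕ) with h | h | h
    · rw [if_pos h.le, if_pos (by omega), Matrix.diagonal_apply_ne _ (by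
        intro hc; rw [hc] at h; omega), hArec k (by omega)]
      ring
    · have hik : i = k := Fin.ext h
      subst hik
      rw [if_pos le_rfl, Matrix.diagonal_apply_eq]
      by_cases h0 : (i : ℕ) = 0
      · rw [h0]; simp
      · rw [if_neg (by omega)]; ring
    · rw [if_neg (by omega), if_neg (by omega), Matrix.diagonal_apply_ne _ (by
        intro hc; rw [hc] at h; omega)]
      ring
  have hMrC : ∀ i k : Fin n, (Mr * CC ℓ n) i k =
      cR * (2 / (2 * ((k : ℕ) : ℝ) + ℓ)) * bt (((i : ℕ) : ℝ) + ((k : ℕ) : ℝ) + 1 / 2) ℓ := by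
    intro i k
    rw [hMr, mul_CC ℓ n (fun i k : ℕ => cR * GG ℓ i k) i k]
    have := hRE3 ℓ hℓ i k
    calc _ = cR * (GG ℓ i k - 2 * ((k : ℕ) : ℝ) / (2 * ((k : ℕ) : ℝ) + ℓ) * GG ℓ i ((k : ℕ) - 1)) := by
          ring
      _ = _ := by rw [this]; ring
  have hdetMt : Mt.det = ∏ k : Fin n, (A k * T k) := by
    have := congrArg Matrix.det hMtC
    rw [Matrix.det_mul, det_CC, mul_one, Matrix.det_diagonal] at this
    exact this
  have hMtpos : 0 < Mt.det := by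
    rw [hdetMt]
    exact Finset.prod_pos fun k _ => mul_pos (hA0 k) (hT0 k)
  refine ⟨hMtpos, ?_⟩
  -- the numbers `r k`
  have hr : ∀ k : ℕ, cR * (2 / (2 * (k : ℝ) + ℓ)) / (A k * T k) = kap ℓ * wg ℓ k := by
    intro k
    rw [← rk_eq ℓ hℓ k]
    simp only [hA, hT, hcR]
    rw [bt_one hl2]
    have b1 := (bt_pos (show (0 : ℝ) < k + 1 by positivity) hl2).ne'
    have b2 := (bt_pos (show (0 : ℝ) < k + 1 / 2 by positivity) hl2).ne'
    have b3 := (bt_pos (show (0 : ℝ) < 1 / 2 by norm_num) hl2).ne'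
    have b4 : (k : ℝ) + ℓ / 2 ≠ 0 := by positivity
    have b5 : 2 * (k : ℝ) + ℓ ≠ 0 := by positivity
    field_simp
  have hkap : 0 < kap ℓ := by
    unfold kap
    have := Real.Gamma_pos_of_pos hl2
    positivity
  have hwg : ∀ k : ℕ, 0 < wg ℓ k := by
    intro k
    unfold wg
    have := Real.Gamma_pos_of_pos (show 0 < 2 * (k : ℝ) + ℓ by positivity)
    have := Real.Gamma_pos_of_pos (show 0 < 2 * (k : ℝ) + 1 by positivity)
    positivity
  set s : Fin n → ℝ := fun k => Real.sqrt (kap ℓ * wg ℓ k) with hs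
  have hs0 : ∀ k, 0 < s k := fun k => Real.sqrt_pos.2 (mul_pos hkap (hwg k))
  set b : Matrix (Fin n) (Fin n) ℝ := fun i k =>
    bt (((i : ℕ) : ℝ) + ((k : ℕ) : ℝ) + 1 / 2) ℓ with hb
  have hSS : SS ℓ n = Matrix.diagonal s * b * Matrix.diagonal s := by
    ext j k
    rw [Matrix.mul_diagonal, Matrix.diagonal_mul]
    simp only [hb, hs]
    unfold SS
    have h1 : Real.sqrt (kap ℓ * wg ℓ j) * Real.sqrt (kap ℓ * wg ℓ k) =
        kap ℓ * Real.sqrt (wg ℓ j * wg ℓ k) := by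
      rw [← Real.sqrt_mul (mul_pos hkap (hwg j)).le,
        show kap ℓ * wg ℓ j * (kap ℓ * wg ℓ k) = kap ℓ ^ 2 * (wg ℓ j * wg ℓ k) by ring,
        Real.sqrt_mul (sq_nonneg _), Real.sqrt_sq hkap.le]
    rw [← h1]
    ring
  have hfac : (Mt - Mr) * CC ℓ n = (1 - b * Matrix.diagonal (fun k : Fin n => kap ℓ * wg ℓ k)) *
      Matrix.diagonal (fun k : Fin n => A k * T k) := by
    rw [Matrix.sub_mul, hMtC, Matrix.sub_mul, Matrix.one_mul]
    congr 1
    ext i k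
    rw [hMrC i k, Matrix.mul_diagonal, Matrix.mul_diagonal, ← hr k]
    simp only [hb]
    have h5 : A (k : ℕ) ≠ 0 := (hA0 k).ne'
    have h6 : T (k : ℕ) ≠ 0 := (hT0 k).ne'
    generalize bt (((i : ℕ) : ℝ) + ((k : ℕ) : ℝ) + 1 / 2) ℓ = z
    field_simp
  have hdet1 : (1 - b * Matrix.diagonal (fun k : Fin n => kap ℓ * wg ℓ k)).det = (1 - SS ℓ n).det := by
    have hsd : (Matrix.diagonal s).det ≠ 0 := by
      rw [Matrix.det_diagonal]
      exact Finset.prod_ne_zero_iff.2 fun k _ => (hs0 k).ne'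
    have hss : Matrix.diagonal (fun k : Fin n => kap ℓ * wg ℓ k) =
        Matrix.diagonal s * Matrix.diagonal s := by
      rw [Matrix.diagonal_mul_diagonal]
      congr 1
      funext k
      simp only [hs]
      rw [Real.mul_self_sqrt (mul_pos hkap (hwg k)).le]
    have h1 : Matrix.diagonal s * (1 - b * Matrix.diagonal (fun k : Fin n => kap ℓ * wg ℓ k)) =
        (1 - SS ℓ n) * Matrix.diagonal s := by
      rw [hSS, hss, Matrix.mul_sub, Matrix.sub_mul, Matrix.mul_one, Matrix.one_mul]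
      simp only [Matrix.mul_assoc]
    have h2 := congrArg Matrix.det h1
    rw [Matrix.det_mul, Matrix.det_mul, mul_comm] at h2
    exact mul_right_cancel₀ hsd h2
  have h3 := congrArg Matrix.det hfac
  rw [Matrix.det_mul, det_CC, mul_one, Matrix.det_mul, hdet1, Matrix.det_diagonal, ← hdetMt] at h3
  rw [h3, mul_comm]

end Pool.Agent.H89.TO
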