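import Pool.Agent.H84.TO.TargetsR

/-!
# Sum over quadratic divisors against the invariant measure (MP_b4e73a_pr, module RCA)
-/

set_option autoImplicit false
set_option linter.unusedSectionVars false

namespace Pool.Agent.H89.TO

open Pool.Agent.H84.TO Matrix MeasureTheory Polynomial
open scoped ENNReal

section meas
variable {ι κ a b : Type} [Fintype ι] [DecidableEq ι] [Fintype κ] [DecidableEq κ]
  [Fintype a] [DecidableEq a] [Fintype b] [DecidableEq b]

theorem measurable_top : Measurable (fun Y : Matrix (ι ⊕ κ) ι ℝ => top Y) := by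
  refine measurable_pi_lambda _ fun i => measurable_pi_lambda _ fun j => ?_
  exact (measurable_pi_apply j).comp (measurable_pi_apply (Sum.inl i))

theorem measurable_bot : Measurable (fun Y : Matrix (ι ⊕ κ) ι ℝ => bot Y) := by
  refine measurable_pi_lambda _ fun i => measurable_pi_lambda _ fun j => ?_
  exact (measurable_pi_apply j).comp (measurable_pi_apply (Sum.inr i))

theorem measurable_blk : Measurable (fun O : Matrix.orthogonalGroup (ι ⊕ κ) ℝ => blk O) := by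
  refine measurable_pi_lambda _ fun i => measurable_pi_lambda _ fun j => ?_
  have h : Measurable (fun O : Matrix.orthogonalGroup (ι ⊕ κ) ℝ =>
      (O : Matrix (ι ⊕ κ) (ι ⊕ κ) ℝ)) := by
    exact continuous_subtype_val.measurable
  exact (measurable_pi_apply (Sum.inl j)).comp ((measurable_pi_apply (Sum.inl i)).comp h)

theorem continuous_gram : Continuous (fun Y : Matrix (ι ⊕ κ) ι ℝ => Yᵀ * Y) :=
  (continuous_id.matrix_transpose).matrix_mul continuous_id

theorem uv_inv (X : Matrix b a ℝ) (V : Matrix a b ℝ) : (uu X * vv V)⁻¹ = vv (-V) * uu (-X) := by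
  apply Matrix.inv_eq_right_inv
  unfold uu vv
  rw [Matrix.fromBlocks_multiply, Matrix.fromBlocks_multiply, Matrix.fromBlocks_multiply,
    ← Matrix.fromBlocks_one]
  congr 1
  · simp
  · simp
  · simp only [Matrix.mul_one, Matrix.one_mul, Matrix.mul_zero, add_zero,
      zero_add, Matrix.mul_add, Matrix.add_mul, Matrix.mul_neg, Matrix.neg_mul, Matrix.mul_assoc]
    abel
  · simp

theorem continuous_uu : Continuous (fun X : Matrix b a ℝ => uu X) := by
  unfold uu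
  exact Continuous.matrix_fromBlocks continuous_const continuous_const continuous_id continuous_const

theorem continuous_vv : Continuous (fun V : Matrix a b ℝ => vv V) := by
  unfold vv
  exact Continuous.matrix_fromBlocks continuous_const continuous_id continuous_const continuous_const

theorem continuous_Pasm : Continuous (fun q : (Matrix b a ℝ × Matrix a b ℝ) × (Matrix a a ℝ ×
    Matrix b b ℝ) => Pasm q.1.1 q.1.2 q.2.1 q.2.2) := by
  unfold Pasm
  simp_rw [uv_inv]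
  have h1 : Continuous (fun q : (Matrix b a ℝ × Matrix a b ℝ) × (Matrix a a ℝ ×
      Matrix b b ℝ) => vv (-q.1.2) * uu (-q.1.1)) :=
    (continuous_vv.comp (continuous_snd.comp continuous_fst).neg).matrix_mul
      (continuous_uu.comp (continuous_fst.comp continuous_fst).neg)
  refine (h1.matrix_transpose.matrix_mul ?_).matrix_mul h1
  exact Continuous.matrix_fromBlocks (continuous_fst.comp continuous_snd) continuous_const
    continuous_const (continuous_snd.comp continuous_snd)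

theorem measurable_Pasm : Measurable (fun q : (Matrix b a ℝ × Matrix a b ℝ) × (Matrix a a ℝ ×
    Matrix b b ℝ) => Pasm q.1.1 q.1.2 q.2.1 q.2.2) :=
  continuous_Pasm.measurable

/-- compositions -/
theorem measurable_psi {α : Type*} [MeasurableSpace α] {ψ : Matrix (a ⊕ b) (a ⊕ b) ℝ → ℝ≥0∞}
    (hψ : Measurable ψ) {X : α → Matrix b a ℝ} {V : α → Matrix a b ℝ} {P1 : α → Matrix a a ℝ}
    {P2 : α → Matrix b b ℝ} (hX : Measurable X) (hV : Measurable V) (h1 : Measurable P1)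
    (h2 : Measurable P2) : Measurable (fun x => ψ (Pasm (X x) (V x) (P1 x) (P2 x))) := by
  have h := measurable_Pasm.comp ((hX.prodMk hV).prodMk (h1.prodMk h2))
  exact hψ.comp h

theorem measurable_Phi : Measurable (fun Y : Matrix ((a ⊕ b) ⊕ κ) (a ⊕ b) ℝ => Phi Y) := by
  have hX : Continuous (fun Y : Matrix ((a ⊕ b) ⊕ κ) (a ⊕ b) ℝ => Xof Y) := by
    refine continuous_matrix fun i j => ?_
    exact continuous_id.matrix_elem (Sum.inl (Sum.inr i)) (Sum.inl j)
  have hk : Continuous (fun Y : Matrix ((a ⊕ b) ⊕ κ) (a ⊕ b) ℝ => kill Y) := by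
    refine continuous_matrix fun i j => ?_
    unfold kill
    rcases i with (i | i) | i <;> rcases j with j | j
    · exact continuous_id.matrix_elem (Sum.inl (Sum.inl i)) (Sum.inl j)
    · exact continuous_id.matrix_elem (Sum.inl (Sum.inl i)) (Sum.inr j)
    · exact continuous_const
    · exact continuous_id.matrix_elem (Sum.inl (Sum.inr i)) (Sum.inr j)
    · exact continuous_id.matrix_elem (Sum.inr i) (Sum.inl j)
    · exact continuous_id.matrix_elem (Sum.inr i) (Sum.inr j)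
  have h : Continuous (fun Y : Matrix ((a ⊕ b) ⊕ κ) (a ⊕ b) ℝ => Phi Y) := by
    unfold Phi
    refine (Continuous.matrix_mul ?_ hk).matrix_mul (continuous_uu.comp hX.neg)
    unfold Pool.Agent.H84.TO.ext
    exact Continuous.matrix_fromBlocks (continuous_uu.comp hX) continuous_const continuous_const
      continuous_const
  exact h.measurable

/-- joint measurability of the resultant -/
theorem measurable_Rs (hTST : T_TST) : Measurable (fun p : Matrix (Fin 2) (Fin 2) ℝ × Matrix b b ℝ =>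
    Rs p.1.charpoly p.2.charpoly) := by
  have htest : Test (fun _ => (1 : ℝ)) :=
    ⟨fun N => measurable_const, fun N R => ⟨1, fun A _ => by simp⟩⟩
  have h := (hTST (fun _ => 1) 0 htest).2.1 (Fintype.card b)
  simp only [mul_one] at h
  let e := Fintype.equivFin b
  have hm : Measurable (fun p : Matrix (Fin 2) (Fin 2) ℝ × Matrix b b ℝ =>
      (p.1, Matrix.reindex e e p.2)) := by
    refine measurable_fst.prodMk ?_
    refine measurable_pi_lambda _ fun i => measurable_pi_lambda _ fun j => ?_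
    exact (measurable_pi_apply (e.symm j)).comp ((measurable_pi_apply (e.symm i)).comp measurable_snd)
  have h2 := h.comp hm
  have h3 : (fun p : Matrix (Fin 2) (Fin 2) ℝ × Matrix b b ℝ => Rs p.1.charpoly p.2.charpoly) =
      (fun p : Matrix (Fin 2) (Fin 2) ℝ × Matrix (Fin (Fintype.card b)) (Fin (Fintype.card b)) ℝ =>
        Rs p.1.charpoly p.2.charpoly) ∘ (fun p : Matrix (Fin 2) (Fin 2) ℝ × Matrix b b ℝ =>
        (p.1, Matrix.reindex e e p.2)) := by
    funext p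
    simp only [Function.comp]
    rw [Matrix.charpoly_reindex]
  rw [h3]
  exact h2

end meas

/-- abstract exchange of integrals -/
theorem swap_abs {α β : Type*} [MeasurableSpace α] [MeasurableSpace β] (ρ : Measure α) [SFinite ρ]
    (ν : Measure β) [SFinite ν] (u : α → ℝ≥0∞) (Q : α → β → ℝ≥0∞) (w : β → ℝ≥0∞) (K : ℝ≥0∞)
    (R : β → ℝ≥0∞) (hu : Measurable u) (hQ : Measurable (fun p : α × β => Q p.1 p.2))
    (hw : Measurable w) (hR : Measurable R) (hk : ∀ y, ∫⁻ z, u z * Q z y ∂ρ = K * R y) :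
    ∫⁻ z, u z * ∫⁻ y, Q z y * w y ∂ν ∂ρ = K * ∫⁻ y, R y * w y ∂ν := by
  have hQ1 : ∀ z, Measurable (fun y => Q z y) := fun z =>
    hQ.comp (measurable_const.prodMk measurable_id)
  have hQ2 : ∀ y, Measurable (fun z => Q z y) := fun y =>
    hQ.comp (measurable_id.prodMk measurable_const)
  have hQw : Measurable (fun p : α × β => u p.1 * (Q p.1 p.2 * w p.2)) :=
    (hu.comp measurable_fst).mul (hQ.mul (hw.comp measurable_snd))
  calc ∫⁻ z, u z * ∫⁻ y, Q z y * w y ∂ν ∂ρ = ∫⁻ z, ∫⁻ y, u z * (Q z y * w y) ∂ν ∂ρ := by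
        refine lintegral_congr fun z => ?_
        exact (lintegral_const_mul _ ((hQ1 z).mul hw)).symm
    _ = ∫⁻ y, ∫⁻ z, u z * (Q z y * w y) ∂ρ ∂ν := lintegral_lintegral_swap hQw.aemeasurable
    _ = ∫⁻ y, K * (R y * w y) ∂ν := by
        refine lintegral_congr fun y => ?_
        calc ∫⁻ z, u z * (Q z y * w y) ∂ρ = ∫⁻ z, (u z * Q z y) * w y ∂ρ :=
              lintegral_congr fun z => by ring
          _ = (∫⁻ z, u z * Q z y ∂ρ) * w y := lintegral_mul_const _ (hu.mul (hQ2 y))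
          _ = _ := by rw [hk y]; ring
    _ = _ := lintegral_const_mul _ (hR.mul hw)

/-- **RCA** -/
theorem rca (hQS : T_QS) (hSPL : T_SPL) (hKN : T_KN) (hMSP : T_MSP) (hTST : T_TST) : T_RCA := by
  intro b κ _ _ _ _ _ μ2 _ _ μb _ _ F ψ hF hψ
  -- measurability facts
  obtain ⟨-, -, hsolN, hgoodN, hdenN, -⟩ := hMSP (Fin 2 ⊕ b) κ
  obtain ⟨-, -, hsol2, hgood2, hden2, hwt2⟩ := hMSP (Fin 2) κ
  obtain ⟨-, -, hsolb, hgoodb, hdenb, hwtb⟩ := hMSP b κ
  have hRs := measurable_Rs (b := b) hTST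
  obtain ⟨F', hF'⟩ : ∃ F' : Matrix (Fin 2) (Fin 2) ℝ → Matrix b b ℝ → ℝ≥0∞, ∀ Z A, F' Z A =
      F Z.charpoly A.charpoly * ENNReal.ofReal |Rs Z.charpoly A.charpoly| := ⟨_, fun _ _ => rfl⟩
  have hF'm : Measurable (Function.uncurry F') := by
    have e0 : Function.uncurry F' = fun p : Matrix (Fin 2) (Fin 2) ℝ × Matrix b b ℝ =>
        F p.1.charpoly p.2.charpoly * ENNReal.ofReal |Rs p.1.charpoly p.2.charpoly| := by
      funext p
      exact hF' p.1 p.2
    rw [e0]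
    exact hF.mul (ENNReal.measurable_ofReal.comp hRs.abs)
  set θ : Matrix ((Fin 2 ⊕ b) ⊕ κ) (Fin 2 ⊕ b) ℝ → ℝ≥0∞ :=
    Set.indicator {Y | good Y} (fun Y0 => ψ (solP Y0) * ENNReal.ofReal (den Y0)) with hθ
  have hθm : Measurable θ :=
    Measurable.indicator ((hψ.comp hsolN).mul (ENNReal.measurable_ofReal.comp hdenN)) hgoodN
  -- step 1
  have h1 : ∫⁻ Y0 in {Y0 : Matrix ((Fin 2 ⊕ b) ⊕ κ) (Fin 2 ⊕ b) ℝ | good Y0},
        (∑' q : QD (top Y0).charpoly, F q ((top Y0).charpoly /ₘ q)) *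
          (ψ (solP Y0) * ENNReal.ofReal (den Y0)) =
      ∫⁻ Y0, (∑' q : QD (top Y0).charpoly, F q ((top Y0).charpoly /ₘ q)) * θ Y0 := by
    rw [← lintegral_indicator hgoodN]
    refine lintegral_congr fun Y0 => ?_
    rw [hθ]
    by_cases h : Y0 ∈ {Y0 : Matrix ((Fin 2 ⊕ b) ⊕ κ) (Fin 2 ⊕ b) ℝ | good Y0}
    · rw [Set.indicator_of_mem h, Set.indicator_of_mem h]
    · rw [Set.indicator_of_notMem h, Set.indicator_of_notMem h, mul_zero]
  have hgoodPhi : MeasurableSet {Y : Matrix ((Fin 2 ⊕ b) ⊕ κ) (Fin 2 ⊕ b) ℝ | good (Phi Y)} :=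
    measurable_Phi hgoodN
  have h2 : ∫⁻ Y : Matrix ((Fin 2 ⊕ b) ⊕ κ) (Fin 2 ⊕ b) ℝ, F (Zof Y).charpoly (Aof Y).charpoly *
        ENNReal.ofReal |Rs (Zof Y).charpoly (Aof Y).charpoly| * θ (Phi Y) =
      ∫⁻ Y in {Y : Matrix ((Fin 2 ⊕ b) ⊕ κ) (Fin 2 ⊕ b) ℝ | good (Phi Y)},
        F' (Zof Y) (Aof Y) * ψ (solP (Phi Y)) * ENNReal.ofReal (den (Phi Y)) := by
    rw [← lintegral_indicator hgoodPhi]
    refine lintegral_congr fun Y => ?_
    rw [hθ]
    by_cases h : good (Phi Y)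
    · rw [Set.indicator_of_mem (show Phi Y ∈ {Y | good Y} from h),
        Set.indicator_of_mem (show Y ∈ {Y | good (Phi Y)} from h)]
      simp only [hF']
      ring
    · rw [Set.indicator_of_notMem (show Phi Y ∉ {Y | good Y} from h),
        Set.indicator_of_notMem (show Y ∉ {Y | good (Phi Y)} from h), mul_zero]
  rw [h1, ← hQS b κ F θ hF hθm, h2, hSPL (Fin 2) b κ F' ψ hF'm hψ]
  -- the function `φ2`
  obtain ⟨φ2, hφ2⟩ : ∃ φ2 : ℝ[X] → ℝ≥0∞, ∀ q, φ2 q = ∫⁻ Ob, F q (blk Ob).charpoly *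
    ENNReal.ofReal |Rs q (blk Ob).charpoly| ∂μb := ⟨_, fun _ => rfl⟩
  have hφ2m : Measurable (fun A : Matrix (Fin 2) (Fin 2) ℝ => φ2 A.charpoly) := by
    have h3 : Measurable (fun p : Matrix (Fin 2) (Fin 2) ℝ × Matrix.orthogonalGroup (b ⊕ κ) ℝ =>
        F' p.1 (blk p.2)) :=
      hF'm.comp (measurable_fst.prodMk (measurable_blk.comp measurable_snd))
    have e3 : (fun A : Matrix (Fin 2) (Fin 2) ℝ => φ2 A.charpoly) =
        fun A : Matrix (Fin 2) (Fin 2) ℝ => ∫⁻ Ob, F' A (blk Ob) ∂μb := by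
      funext A
      rw [hφ2]
      exact lintegral_congr fun Ob => (hF' _ _).symm
    rw [e3]
    exact h3.lintegral_prod_right'
  -- step 4
  have h4 : ∀ (X : Matrix b (Fin 2) ℝ) (V : Matrix (Fin 2) b ℝ) (Z1 : Matrix (Fin 2 ⊕ κ) (Fin 2) ℝ),
      ∫⁻ Y2 in {Y2 : Matrix (b ⊕ κ) b ℝ | good Y2},
            F' (top Z1) (top Y2) * ψ (Pasm X V (solP Z1) (solP Y2)) *
              ENNReal.ofReal (den Z1) * ENNReal.ofReal (den Y2) =
      φ2 (top Z1).charpoly * ENNReal.ofReal (den Z1) *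
        ∫⁻ Y2 : Matrix (b ⊕ κ) b ℝ, ψ (Pasm X V (solP Z1) (Y2ᵀ * Y2)) * wt Y2 := by
    intro X V Z1
    have hφm : Measurable (fun A : Matrix b b ℝ => F (top Z1).charpoly A.charpoly *
        ENNReal.ofReal |Rs (top Z1).charpoly A.charpoly|) := by
      have e3 : (fun A : Matrix b b ℝ => F (top Z1).charpoly A.charpoly *
          ENNReal.ofReal |Rs (top Z1).charpoly A.charpoly|) = fun A => F' (top Z1) A :=
        funext fun A => (hF' _ _).symm
      rw [e3]
      exact hF'm.comp (measurable_const.prodMk measurable_id)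
    have hψm : Measurable (fun P2 : Matrix b b ℝ => ψ (Pasm X V (solP Z1) P2)) :=
      measurable_psi hψ measurable_const measurable_const measurable_const measurable_id
    have hk := hKN b κ μb (fun χ => F (top Z1).charpoly χ *
      ENNReal.ofReal |Rs (top Z1).charpoly χ|) (fun P2 => ψ (Pasm X V (solP Z1) P2)) hφm hψm
    have e1 : ∀ Y2 : Matrix (b ⊕ κ) b ℝ, F' (top Z1) (top Y2) * ψ (Pasm X V (solP Z1) (solP Y2)) *
              ENNReal.ofReal (den Z1) * ENNReal.ofReal (den Y2) =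
        ENNReal.ofReal (den Z1) * (F (top Z1).charpoly (top Y2).charpoly *
          ENNReal.ofReal |Rs (top Z1).charpoly (top Y2).charpoly| *
          ψ (Pasm X V (solP Z1) (solP Y2)) * ENNReal.ofReal (den Y2)) := by
      intro Y2
      simp only [hF']
      ring
    simp_rw [e1]
    rw [lintegral_const_mul' _ _ ENNReal.ofReal_ne_top, hk]
    simp only [hφ2]
    ring
  -- step 5
  obtain ⟨K, hK⟩ : ∃ K : ℝ≥0∞, K = ∫⁻ O2, φ2 (blk O2).charpoly ∂μ2 := ⟨_, rfl⟩
  have hm2 : Measurable (fun Z1 : Matrix (Fin 2 ⊕ κ) (Fin 2) ℝ =>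
      φ2 (top Z1).charpoly * ENNReal.ofReal (den Z1)) :=
    (hφ2m.comp measurable_top).mul (ENNReal.measurable_ofReal.comp hden2)
  have hg2 : Measurable (fun Y : Matrix (Fin 2 ⊕ κ) (Fin 2) ℝ => Yᵀ * Y) :=
    continuous_gram.measurable
  have hgb : Measurable (fun Y : Matrix (b ⊕ κ) b ℝ => Yᵀ * Y) := continuous_gram.measurable
  have hm5 : Measurable (fun q : (Matrix b (Fin 2) ℝ × Matrix (Fin 2) b ℝ) ×
      (Matrix (Fin 2 ⊕ κ) (Fin 2) ℝ × Matrix (b ⊕ κ) b ℝ) =>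
        ψ (Pasm q.1.1 q.1.2 (q.2.1ᵀ * q.2.1) (q.2.2ᵀ * q.2.2)) * wt q.2.1) :=
    (measurable_psi hψ (measurable_fst.comp measurable_fst) (measurable_snd.comp measurable_fst)
      (hg2.comp (measurable_fst.comp measurable_snd))
      (hgb.comp (measurable_snd.comp measurable_snd))).mul
      (hwt2.comp (measurable_fst.comp measurable_snd))
  obtain ⟨R, hR⟩ : ∃ R : Matrix b (Fin 2) ℝ → Matrix (Fin 2) b ℝ → Matrix (b ⊕ κ) b ℝ → ℝ≥0∞,
      ∀ X V Y2, R X V Y2 = ∫⁻ Y1 : Matrix (Fin 2 ⊕ κ) (Fin 2) ℝ,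
        ψ (Pasm X V (Y1ᵀ * Y1) (Y2ᵀ * Y2)) * wt Y1 := ⟨_, fun _ _ _ => rfl⟩
  have hRm : Measurable (fun q : (Matrix b (Fin 2) ℝ × Matrix (Fin 2) b ℝ) ×
      Matrix (b ⊕ κ) b ℝ => R q.1.1 q.1.2 q.2) := by
    have e5 : (fun q : (Matrix b (Fin 2) ℝ × Matrix (Fin 2) b ℝ) ×
        Matrix (b ⊕ κ) b ℝ => R q.1.1 q.1.2 q.2) = fun q : (Matrix b (Fin 2) ℝ ×
        Matrix (Fin 2) b ℝ) × Matrix (b ⊕ κ) b ℝ => ∫⁻ Y1 : Matrix (Fin 2 ⊕ κ) (Fin 2) ℝ,
        ψ (Pasm q.1.1 q.1.2 (Y1ᵀ * Y1) (q.2ᵀ * q.2)) * wt Y1 := funext fun q => hR _ _ _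
    rw [e5]
    have h6 : Measurable (fun z : ((Matrix b (Fin 2) ℝ × Matrix (Fin 2) b ℝ) ×
        Matrix (b ⊕ κ) b ℝ) × Matrix (Fin 2 ⊕ κ) (Fin 2) ℝ =>
        ψ (Pasm z.1.1.1 z.1.1.2 (z.2ᵀ * z.2) (z.1.2ᵀ * z.1.2)) * wt z.2) :=
      (measurable_psi hψ (measurable_fst.comp (measurable_fst.comp measurable_fst))
        (measurable_snd.comp (measurable_fst.comp measurable_fst))
        (hg2.comp measurable_snd)
        (hgb.comp (measurable_snd.comp measurable_fst))).mul (hwt2.comp measurable_snd)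
    exact h6.lintegral_prod_right'
  have h5 : ∀ (X : Matrix b (Fin 2) ℝ) (V : Matrix (Fin 2) b ℝ),
      ∫⁻ Z1 in {Z1 : Matrix (Fin 2 ⊕ κ) (Fin 2) ℝ | good Z1},
        φ2 (top Z1).charpoly * ENNReal.ofReal (den Z1) *
        ∫⁻ Y2 : Matrix (b ⊕ κ) b ℝ, ψ (Pasm X V (solP Z1) (Y2ᵀ * Y2)) * wt Y2 =
      K * ∫⁻ Y2 : Matrix (b ⊕ κ) b ℝ, R X V Y2 * wt Y2 := by
    intro X V
    refine swap_abs (volume.restrict {Z1 : Matrix (Fin 2 ⊕ κ) (Fin 2) ℝ | good Z1}) volume
      (fun Z1 => φ2 (top Z1).charpoly * ENNReal.ofReal (den Z1))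
      (fun Z1 Y2 => ψ (Pasm X V (solP Z1) (Y2ᵀ * Y2))) wt K (R X V) hm2 ?_ hwtb ?_ ?_
    · exact measurable_psi hψ measurable_const measurable_const (hsol2.comp measurable_fst)
        (hgb.comp measurable_snd)
    · exact hRm.comp (measurable_const.prodMk measurable_id :
        Measurable (fun Y2 : Matrix (b ⊕ κ) b ℝ => ((X, V), Y2)))
    · intro Y2
      have hψm : Measurable (fun P1 : Matrix (Fin 2) (Fin 2) ℝ =>
          ψ (Pasm X V P1 (Y2ᵀ * Y2))) :=
        measurable_psi hψ measurable_const measurable_const measurable_id measurable_const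
      have hk := hKN (Fin 2) κ μ2 φ2 (fun P1 => ψ (Pasm X V P1 (Y2ᵀ * Y2))) hφ2m hψm
      rw [hR, hK, ← hk]
      exact lintegral_congr fun Z1 => by ring
  -- the last exchange
  have h7 : ∀ (X : Matrix b (Fin 2) ℝ) (V : Matrix (Fin 2) b ℝ),
      ∫⁻ Y1 : Matrix (Fin 2 ⊕ κ) (Fin 2) ℝ, ∫⁻ Y2 : Matrix (b ⊕ κ) b ℝ,
        ψ (Pasm X V (Y1ᵀ * Y1) (Y2ᵀ * Y2)) * wt Y1 * wt Y2 =
      ∫⁻ Y2 : Matrix (b ⊕ κ) b ℝ, R X V Y2 * wt Y2 := by
    intro X V
    have hm6 : Measurable (fun p : Matrix (Fin 2 ⊕ κ) (Fin 2) ℝ × Matrix (b ⊕ κ) b ℝ =>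
        ψ (Pasm X V (p.1ᵀ * p.1) (p.2ᵀ * p.2)) * wt p.1 * wt p.2) :=
      ((measurable_psi hψ measurable_const measurable_const (hg2.comp measurable_fst)
        (hgb.comp measurable_snd)).mul (hwt2.comp measurable_fst)).mul (hwtb.comp measurable_snd)
    rw [lintegral_lintegral_swap hm6.aemeasurable]
    refine lintegral_congr fun Y2 => ?_
    have hm7 : Measurable (fun Y1 : Matrix (Fin 2 ⊕ κ) (Fin 2) ℝ =>
        ψ (Pasm X V (Y1ᵀ * Y1) (Y2ᵀ * Y2)) * wt Y1) :=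
      (measurable_psi hψ measurable_const measurable_const hg2 measurable_const).mul hwt2
    rw [lintegral_mul_const _ hm7, hR]
  have hS : Measurable (fun q : Matrix b (Fin 2) ℝ × Matrix (Fin 2) b ℝ =>
      ∫⁻ Y2 : Matrix (b ⊕ κ) b ℝ, R q.1 q.2 Y2 * wt Y2) :=
    (hRm.mul (hwtb.comp measurable_snd)).lintegral_prod_right'
  have hS1 : ∀ X : Matrix b (Fin 2) ℝ, Measurable (fun V : Matrix (Fin 2) b ℝ =>
      ∫⁻ Y2 : Matrix (b ⊕ κ) b ℝ, R X V Y2 * wt Y2) := fun X =>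
    hS.comp (measurable_const.prodMk measurable_id : Measurable (fun V : Matrix (Fin 2) b ℝ =>
      (X, V)))
  have hS2 : Measurable (fun X : Matrix b (Fin 2) ℝ => ∫⁻ V : Matrix (Fin 2) b ℝ,
      ∫⁻ Y2 : Matrix (b ⊕ κ) b ℝ, R X V Y2 * wt Y2) := hS.lintegral_prod_right'
  have hKeq : (∫⁻ O2, ∫⁻ Ob, F (blk O2).charpoly (blk Ob).charpoly *
      ENNReal.ofReal |Rs (blk O2).charpoly (blk Ob).charpoly| ∂μb ∂μ2) = K := by
    rw [hK]
    exact lintegral_congr fun O2 => (hφ2 _).symm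
  have hCp : Cp b κ ψ = ∫⁻ X : Matrix b (Fin 2) ℝ, ∫⁻ V : Matrix (Fin 2) b ℝ,
      ∫⁻ Y2 : Matrix (b ⊕ κ) b ℝ, R X V Y2 * wt Y2 := by
    unfold Cp
    exact lintegral_congr fun X => lintegral_congr fun V => h7 X V
  rw [hKeq, hCp]
  calc _ = ∫⁻ X : Matrix b (Fin 2) ℝ, ∫⁻ V : Matrix (Fin 2) b ℝ,
      K * ∫⁻ Y2 : Matrix (b ⊕ κ) b ℝ, R X V Y2 * wt Y2 := by
        refine lintegral_congr fun X => lintegral_congr fun V => ?_
        rw [← h5 X V]
        exact lintegral_congr fun Z1 => h4 X V Z1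
    _ = ∫⁻ X : Matrix b (Fin 2) ℝ, K * ∫⁻ V : Matrix (Fin 2) b ℝ,
      ∫⁻ Y2 : Matrix (b ⊕ κ) b ℝ, R X V Y2 * wt Y2 :=
        lintegral_congr fun X => lintegral_const_mul _ (hS1 X)
    _ = _ := lintegral_const_mul _ hS2

end Pool.Agent.H89.TO
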